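import Mathlib

set_option autoImplicit false

namespace Pool.Agent.Results.MP_870dc7_co.Counter

open Filter

/-- The counting function `B(N)`. -/
noncomputable def cnt (B : Set ℕ) (N : ℕ) : ℕ := (B ∩ Set.Icc 1 N).ncard

def Small (H : ℕ → ℕ) (S : Set ℕ) : Prop := ∃ K : ℕ, ∀ᶠ N in atTop, cnt S N ≤ K * (H N + 1)

lemma cnt_mono {S T : Set ℕ} (h : S ⊆ T) (N : ℕ) : cnt S N ≤ cnt T N :=
  Set.ncard_le_ncard (Set.inter_subset_inter_left _ h) ((Set.finite_Icc 1 N).inter_of_right _)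

def F (H : ℕ → ℕ) : Filter ℕ where
  sets := {S | Small H Sᶜ}
  univ_sets := ⟨0, by simp [cnt]⟩
  sets_of_superset := fun ⟨K, h⟩ hs =>
    ⟨K, h.mono fun N hN => (cnt_mono (Set.compl_subset_compl.2 hs) N).trans hN⟩
  inter_sets := fun {S T} ⟨K, h⟩ ⟨K', h'⟩ => ⟨K + K', (h.and h').mono fun N hN => by
    have : cnt (S ∩ T)ᶜ N ≤ cnt Sᶜ N + cnt Tᶜ N := by
      unfold cnt
      rw [Set.compl_inter, Set.union_inter_distrib_right]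
      exact Set.ncard_union_le _ _
    rw [add_mul]; omega⟩

lemma ultra (H : ℕ → ℕ) (hH : ∀ K, ∀ᶠ N in atTop, K * H N ≤ N) : ∃ U : Ultrafilter ℕ,
    ∀ S ∈ U, ∀ j, (∃ s ∈ S, j < s) ∧ ∃ N, j ≤ N ∧ H N ≤ cnt S N := by
  have nb : (F H).NeBot := by
    rw [neBot_iff, Ne, ← empty_mem_iff_bot]
    rintro ⟨K, h⟩
    obtain ⟨N, ⟨h1, h2⟩, h3⟩ := ((h.and (hH (2 * K))).and (eventually_gt_atTop (2 * K))).exists
    have : cnt (∅ : Set ℕ)ᶜ N = N := by simp [cnt]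
    rw [this, mul_add] at h1
    rw [mul_assoc] at h2
    omega
  refine ⟨Ultrafilter.of (F H), fun S hS j => ?_⟩
  have ns : ¬ Small H S := fun h => by
    have : Sᶜ ∈ Ultrafilter.of (F H) := Ultrafilter.of_le (F H) (by
      show Small H Sᶜᶜ
      rwa [compl_compl])
    exact (Ultrafilter.compl_mem_iff_notMem.1 this) hS
  constructor
  · by_contra hc
    push Not at hc
    refine ns ⟨j, Eventually.of_forall fun N => ?_⟩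
    have : cnt S N ≤ (Set.Icc 1 j).ncard :=
      Set.ncard_le_ncard (fun x hx => ⟨hx.2.1, hc x hx.1⟩) (Set.finite_Icc 1 j)
    simp only [Set.ncard_Icc_nat, Nat.add_sub_cancel] at this
    nlinarith
  · by_contra hc
    push Not at hc
    exact ns ⟨1, eventually_atTop.2 ⟨j, fun N hN => by have := hc N hN; omega⟩⟩

lemma main (H : ℕ → ℕ) (hH : ∀ K, ∀ᶠ N in atTop, K * H N ≤ N) {r : ℕ} (χ : ℕ → Fin r) :
    ∃ (B C : Set ℕ) (i : Fin r), B.Infinite ∧ C.Infinite ∧ 0 ∉ B ∧ 0 ∉ C ∧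
      (∀ b ∈ B, ∀ c ∈ C, χ (b + c) = i) ∧ ∃ᶠ N in atTop, H N ≤ cnt B N := by
  obtain ⟨U, hU⟩ := ultra H hH
  have h1 : ∀ f : ℕ → Fin r, ∃ i, {n | f n = i} ∈ U := fun f => by
    obtain ⟨i, hi⟩ := (U.map f).eq_pure_of_finite
    exact ⟨i, by have : {i} ∈ U.map f := by rw [hi]; simp
                 exact this⟩
  choose φ hφ using fun b => h1 fun c => χ (b + c)
  obtain ⟨i, hi⟩ := h1 φ
  have pos : {n | 0 < n} ∈ U := by
    by_contra h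
    obtain ⟨s, a, b⟩ := (hU _ (Ultrafilter.compl_mem_iff_notMem.2 h) 0).1
    exact a b
  let Ok : Set ℕ × Set ℕ → Prop := fun p => p.1.Finite ∧ p.2.Finite ∧
    (∀ b ∈ p.1, φ b = i ∧ 0 < b) ∧ (∀ c ∈ p.2, φ c = i ∧ 0 < c) ∧
    ∀ b ∈ p.1, ∀ c ∈ p.2, χ (b + c) = i
  have allowed : ∀ T : Set ℕ, T.Finite → (∀ t ∈ T, φ t = i ∧ 0 < t) →
      {n | (φ n = i ∧ 0 < n) ∧ ∀ t ∈ T, χ (t + n) = i} ∈ U := fun T hT h =>
    inter_mem (inter_mem hi pos) ((eventually_all_finite hT).2 fun t ht => (h t ht).1 ▸ hφ t)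
  have step : ∀ (j : ℕ) (p : {p // Ok p}), ∃ q : {p // Ok p}, p.1.1 ⊆ q.1.1 ∧ p.1.2 ⊆ q.1.2 ∧
      (∃ b ∈ q.1.1, j < b) ∧ (∃ c ∈ q.1.2, j < c) ∧ ∃ N, j ≤ N ∧ H N ≤ cnt q.1.1 N := by
    rintro j ⟨⟨B, C⟩, fB, fC, hB, hC, hBC⟩
    obtain ⟨⟨b, hb, jb⟩, N, jN, hN⟩ := hU _ (allowed C fC hC) j
    obtain ⟨D, hD⟩ : ∃ D, D = {n | (φ n = i ∧ 0 < n) ∧ ∀ t ∈ C, χ (t + n) = i} := ⟨_, rfl⟩
    rw [← hD] at hb hN
    have fB' : (B ∪ D ∩ Set.Icc 1 (max N b)).Finite :=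
      fB.union ((Set.finite_Icc _ _).inter_of_right _)
    have hB' : ∀ t ∈ B ∪ D ∩ Set.Icc 1 (max N b), φ t = i ∧ 0 < t := by
      rintro t (ht | ⟨ht, -⟩)
      · exact hB t ht
      · rw [hD] at ht; exact ht.1
    obtain ⟨c, hc, jc⟩ := (hU _ (allowed _ fB' hB') j).1
    refine ⟨⟨(B ∪ D ∩ Set.Icc 1 (max N b), insert c C), fB', fC.insert c, hB', ?_, ?_⟩,
      Set.subset_union_left, Set.subset_insert _ _,
      ⟨b, Or.inr ⟨hb, by omega, le_max_right _ _⟩, jb⟩, ⟨c, Or.inl rfl, jc⟩, N, jN,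
      hN.trans (Set.ncard_le_ncard ?_ ((Set.finite_Icc 1 N).inter_of_right _))⟩
    · rintro t (rfl | ht)
      · exact hc.1
      · exact hC t ht
    · rintro s hs t (rfl | ht)
      · exact hc.2 s hs
      · rcases hs with hs | ⟨hs, -⟩
        · exact hBC s hs t ht
        · rw [hD] at hs; rw [add_comm]; exact hs.2 t ht
    · exact fun x hx => ⟨Or.inr ⟨hx.1, hx.2.1, hx.2.2.trans (le_max_left _ _)⟩, hx.2⟩
  choose g g1 g2 g3 g4 g5 using step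
  let s : ℕ → {p // Ok p} := fun n => Nat.rec ⟨(∅, ∅), by simp [Ok]⟩ g n
  have m1 : Monotone fun n => (s n).1.1 := monotone_nat_of_le_succ fun n => g1 n (s n)
  have m2 : Monotone fun n => (s n).1.2 := monotone_nat_of_le_succ fun n => g2 n (s n)
  refine ⟨⋃ n, (s n).1.1, ⋃ n, (s n).1.2, i, Set.infinite_of_forall_exists_gt fun j => ?_,
    Set.infinite_of_forall_exists_gt fun j => ?_, ?_, ?_, ?_, frequently_atTop.2 fun j => ?_⟩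
  · obtain ⟨b, h, e⟩ := g3 j (s j)
    exact ⟨b, Set.mem_iUnion.2 ⟨j + 1, h⟩, e⟩
  · obtain ⟨b, h, e⟩ := g4 j (s j)
    exact ⟨b, Set.mem_iUnion.2 ⟨j + 1, h⟩, e⟩
  · intro h
    obtain ⟨n, h⟩ := Set.mem_iUnion.1 h
    exact absurd ((s n).2.2.2.1 0 h).2 (lt_irrefl _)
  · intro h
    obtain ⟨n, h⟩ := Set.mem_iUnion.1 h
    exact absurd ((s n).2.2.2.2.1 0 h).2 (lt_irrefl _)
  · intro b hb c hc
    obtain ⟨n, hb⟩ := Set.mem_iUnion.1 hb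
    obtain ⟨k, hc⟩ := Set.mem_iUnion.1 hc
    exact (s (max n k)).2.2.2.2.2 b (m1 (le_max_left n k) hb) c (m2 (le_max_right n k) hc)
  · obtain ⟨N, h, e⟩ := g5 j (s j)
    exact ⟨N, h, e.trans (cnt_mono (Set.subset_iUnion (fun n => (s n).1.1) (j + 1)) N)⟩

theorem result :
    (∀ H : ℕ → ℕ, (∀ K, ∀ᶠ N in atTop, K * H N ≤ N) → ∀ (r : ℕ) (χ : ℕ → Fin r),
      ∃ (B C : Set ℕ) (i : Fin r), B.Infinite ∧ C.Infinite ∧ 0 ∉ B ∧ 0 ∉ C ∧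
        (∀ b ∈ B, ∀ c ∈ C, χ (b + c) = i) ∧ ∃ᶠ N in atTop, H N ≤ cnt B N) ∧
    ∃ H : ℕ → ℕ, Monotone H ∧ Tendsto H atTop atTop ∧ (∀ N, 1 ≤ N → 1 ≤ H N) ∧
      ∀ χ : ℕ → Fin 2, ∃ (B C : Set ℕ) (i : Fin 2), B.Infinite ∧ C.Infinite ∧ 0 ∉ B ∧ 0 ∉ C ∧
        (∀ b ∈ B, ∀ c ∈ C, χ (b + c) = i) ∧ ∃ᶠ N in atTop, H N ≤ max (cnt B N) (cnt C N) := by
  refine ⟨fun H hH r χ => main H hH χ, Nat.sqrt, fun _ _ => Nat.sqrt_le_sqrt,
    tendsto_atTop.2 fun b => eventually_atTop.2 ⟨b * b, fun N h => Nat.le_sqrt.2 h⟩,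
    fun N h => Nat.le_sqrt.2 h, fun χ => ?_⟩
  obtain ⟨B, C, i, a, b, c, d, e, f⟩ := main Nat.sqrt (fun K => eventually_atTop.2
    ⟨K * K, fun N h => (Nat.mul_le_mul_right _ (Nat.le_sqrt.2 h)).trans (Nat.sqrt_le N)⟩) χ
  exact ⟨B, C, i, a, b, c, d, e, f.mono fun N h => h.trans (le_max_left _ _)⟩

end Pool.Agent.Results.MP_870dc7_co.Counter
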